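import Mathlib
import Pool.Agent.T3h90.CI.Main

/-!
# Zero density from moments for `GL(n)`: almost all `L`-functions satisfy the Lindelöf bound in `Re s > σ_n`

Let `K` be a number field, `n ≥ 1`, `1/2 < σ ≤ 1`. The theorem is about **every** family of pairwise different unitary cuspidal
automorphic representations `π_f` of `GL_n` over `K` (any levels, any archimedean types), and `L(s) = L(s, π_f × π'~)`, where `π'`
is a fixed unitary cuspidal representation of `GL_{n'}`; the trivial representation of `GL_1` gives the standard `L`-functions.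

1. Let `C` bound the analytic conductors of `L(s, π_f × π'~)` at `i Im s_f`, `Q` those of the pairs `L(s, π_f × π_g~)` at
   `i (Im s_f - Im s_g)`, `f = g` included, `Q'` that of `L(s, π' × π'~)`, and let `G = C Q Q'` be large in terms of `K`, `n`,
   `n'`, `j`, `σ`, `ε`. Let `j ≥ 1` be an integer with `C^j ≤ Q^2`. If for every `f ∈ T` either `Re s_f ≥ σ` and **not**
   `G^{-ε} ≤ |L(s_f)| ≤ G^ε` (for instance `L(s_f) = 0`), or `1/2 ≤ Re s_f ≤ σ` and
   `|L(s_f)| > G^ε Q^{(σ - Re s_f)/(j + 2 - 2σ)}`, then `T` is finite and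

   `|T| ≤ G^ε Q^{2 (1 - σ) (j + 1)/(j + 2 - 2σ)}`.

   (For `j = 2` the exponent is Ingham's `3 (1 - σ)/(2 - σ)`, for `j → ∞` it tends to `2 (1 - σ)`, the density hypothesis.)
2. In a universal family, with `C(π)` the conductor of `L(s, π × π'~)` and conductors of the pairs at most `B (C(π_f) C(π_g))^n`
   (for standard `L`-functions this is known, with `B` depending on `K` and `n`, from the bound of Bushnell and Henniart): for
   large `X` there is an exceptional set with at most `X^{2n (4n + 1)(1 - σ)/(2n + 1 - σ) + ε}` elements such that all other `π`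
   with `C(π) ≤ X` satisfy, for all `s` with `|Im s| ≤ X^c`, `c > 0`,

   * `X^{-ε} ≤ |L(s)| ≤ X^ε` if `Re s ≥ σ`,
   * `|L(s)| ≤ X^{n (σ - Re s)/(2n + 1 - σ) + ε}` if `1/2 ≤ Re s ≤ σ`.
3. The exponent in 2. is smaller than `n + 1` if `σ > σ_n = 3/4 - (7n + 1)/(4 (8n² + n - 1))`.

There are about `X^{n + 1}` unitary cuspidal `π` on `GL_n` with `C(π) ≤ X` (Brumley, Milićević). So **for 100 per cent of all
unitary cuspidal representations of `GL_n`, ordered by conductor, the full Lindelöf bound `|L(s, π)| ≤ C(π)^ε` and the lower bound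
`|L(s, π)| ≥ C(π)^{-ε}` hold in the half plane `Re s ≥ σ_n + ε`, `|Im s| ≤ C(π)^c`**, with exceptions at most `X^{n + 1 - c'}`.
Here `σ_1 = 1/2`, `σ_2 = 7/11 = 0.636…`, `σ_3 = 25/37 = 0.675…`. The theorem `LindelofForAlmostAll` handed in earlier for this
problem has `3/4 - 1/(6n + 4)` (`0.65`, `0.6875`, `0.704…` for `n = 1, 2, 3`) instead of `σ_n`, and more exceptions for all
`σ ≤ 3/4`: the exponent there is `4n (1 - σ) + (1 - σ)/σ`, the present one `4n (1 - σ) + 2n (2σ - 1)(1 - σ)/(2n + 1 - σ)`. The moments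
of order `8n` (`HuxleyMoments`, handed in for `MP_cf4097_nt`) bound `L` on the critical line only, for 100 per cent of all `π` by
`C(π)^{(n - 1)/(8n) + ε}`; they say nothing about zeros, hence nothing about lower bounds, and the convexity principle applied to
them does not give `C(π)^ε` anywhere in the critical strip. Between the two lines the present bound interpolates:
`|L(s, π)| ≤ C(π)^{n (σ_n - Re s)/(2n + 1 - σ_n) + ε}` for 100 per cent of all `π`, `1/2 ≤ Re s ≤ σ_n`.

Other zero density theorems for families of `GL(n)` which are not given by a trace formula: Kowalski and Michel (2002: one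
archimedean type, Satake parameters at most `p^θ` with `θ < 1/4`, exponent `(5n/2 + d)(1 - σ)/(2σ - 1)` for `σ ≥ 3/4`), Brumley,
Thorner and Zaman, Humphries and Thorner (log-free, exponents like `6.15 n^4 (1 - σ)`, which say something about 100 per cent of all
`π` only for `Re s > 1 - c/n³`). For `n = 1` results like this one are classical (Montgomery, Huxley, Jutila, Duke). Nothing is
assumed on the size of the family or towards the Ramanujan conjecture.

The structure `GLFamily` lists what is used on the pairs `π_f × π_g~`, `Twists` what is used on `π_f × π'~`; all of it is known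
for unitary cuspidal representations with central characters trivial on the positive reals (Jacquet, Piatetski-Shapiro,
Shalika; Moeglin, Waldspurger), for `n' = 1` (for `n' > 1` the field `re_gt` of `Twists`, `Re μ_j > -1/2`, is an assumption on the
archimedean components). `S f` is the set of the places where `π_f` is ramified; the product of the norms of its elements is at
most the conductor of `π_f` (in 1. it is enough that it is at most `C Q Q'`). The numbers `u(v, k, j)` are the normalised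
coefficients of `log L(s, π × π~)`, a vector for every `π` (of any degree) such that the coefficients of `log L(s, π × π'~)` are
the scalar products.

The proof. Montgomery's method in the Fock space of `u`. Let `x = log Q + ε log G`. The function `L(s, π_f × π'~) M_f(s)`, `M_f` the
truncated inverse of length `e^x`, has the coefficient `1` at the ideal `1` and `0` at all other ideals of norm up to `e^x`. If
`L(ρ_f) = 0`, `Re ρ_f ≥ σ`, the smoothed sum of length `e^y`, `y = θ log Q`, `θ = (j + 1)/(j + 2 - 2σ) ≥ 1`, is shifted **to the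
critical line** (in `LindelofForAlmostAll` it is shifted to the left of the critical strip, and the trivial bounds are used
there): either (I) a block of the coefficients with norms in `[e^x, e^{y + ε}]` has a value `≥ (log G)^{-c}` at `ρ_f`, or (II)
`|L M_f| ≥ e^{(σ - 1/2) y - ε}` at some point `1/2 + iγ`, `|γ - Im ρ_f| ≤ G^ε`. All functionals in (I) have lengths beyond
`Q^{1 + ε}`, where the Gram matrix of the vectors `exp(u_f)`, localised to the block, is essentially diagonal (shift to
`Re s = -∞` of the `L`-functions of the pairs): at most `e^{(2 - 2σ) y} G^ε` such `f`. In (II) either `|L| ≥ H^{1/(j + 1)}` or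
`|M_f| ≥ H^{j/(j + 1)}`, `H = e^{(σ - 1/2) y - ε}`. The first has at most `G^ε Q H^{-2j/(j + 1)}` solutions by the `2j`-th moment of
`HuxleyMoments` (multipliers `e_v` of absolute value `1` on the Satake parameters move short functionals to the length `Q`), the
second at most as many by the mean square of `M_f`, which is proved here with the same multipliers (blocks of `M_f` of length less
than `Q`); no moment of a mollified `L`-function is needed. The value of `θ` makes (I) and (II) equal. The members without zeros in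
`Re s ≥ σ - η` near the point: Borel, Carathéodory and Hadamard's three circles for `log L`. The region between: the three lines
theorem between the critical line, where members with `|L| > Q^{(σ - 1/2)/(j + 2 - 2σ)}` are counted by the moment, and `Re s = σ`.
-/

set_option autoImplicit false

namespace Pool.Agent.Results.MP_52e316_nt.LindelofHalfPlaneGLn

open Complex NumberField IsDedekindDomain
open Pool.Agent.N846.DU (GLFamily VX Nv)
open Pool.Agent.N846.LM (Twists)

/-- **100 per cent of the `L`-functions on `GL(n)` satisfy the Lindelöf bound and have no zeros in `Re s > σ_n`**, where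
`σ_n = 3/4 - (7n + 1)/(4 (8n² + n - 1))`, `σ_1 = 1/2`. -/
theorem result (K : Type) [Field K] [NumberField K] (n N n' N' N'' : ℕ) (hn : 1 ≤ n) {ε σ : ℝ} (hε : 0 < ε)
    (hσ : 1 / 2 < σ) (hσ1 : σ ≤ 1) :
    (∀ j : ℕ, 1 ≤ j → ∃ A : ℝ, 1 ≤ A ∧
      ∀ (ι : Type) (S : ι → Finset (HeightOneSpectrum (𝓞 K)))
        (α : ι → HeightOneSpectrum (𝓞 K) → Fin n → ℂ) (u : ι → VX K → ℂ) (q : ι → ι → ℝ) (κ : ι → ι → Fin N → ℂ)
        (S' : Finset (HeightOneSpectrum (𝓞 K))) (α' : HeightOneSpectrum (𝓞 K) → Fin n' → ℂ) (w : VX K → ℂ) (q' : ℝ)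
        (κ' : Fin N'' → ℂ) (qs : ι → ℝ) (μ : ι → Fin N' → ℂ) (L : ι → ℂ → ℂ),
        GLFamily n N S α u q κ → Twists n' N' N'' u S' α' w q' κ' qs μ L →
        ∀ (T : Set ι) (s : ι → ℂ) (C Q Q' : ℝ), 1 ≤ C → 1 ≤ Q → C ^ j ≤ Q ^ 2 →
          q' * ∏ j, (1 + ‖κ' j‖) ≤ Q' → A ≤ C * Q * Q' → (∀ f ∈ T, ∏ v ∈ S f, Nv v ≤ C * Q * Q') →
          (∀ f ∈ T, qs f * ∏ j, (1 + ‖μ f j + (s f).im * I‖) ≤ C) →
          (∀ f ∈ T, ∀ g ∈ T, q f g * ∏ j, (1 + ‖κ f g j + ((s f).im - (s g).im) * I‖) ≤ Q) →
          (∀ f ∈ T,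
            (σ ≤ (s f).re ∧ ¬((C * Q * Q') ^ (-ε) ≤ ‖L f (s f)‖ ∧ ‖L f (s f)‖ ≤ (C * Q * Q') ^ ε)) ∨
            (1 / 2 ≤ (s f).re ∧ (s f).re ≤ σ ∧
              (C * Q * Q') ^ ε * Q ^ ((σ - (s f).re) / (j + 2 - 2 * σ)) < ‖L f (s f)‖)) →
          T.Finite ∧ (T.ncard : ℝ) ≤ (C * Q * Q') ^ ε * Q ^ (2 * (1 - σ) * (j + 1) / (j + 2 - 2 * σ))) ∧
    (∀ B Q' : ℝ, 1 ≤ B → 1 ≤ Q' → ∃ A c : ℝ, 1 ≤ A ∧ 0 < c ∧
      ∀ (ι : Type) (S : ι → Finset (HeightOneSpectrum (𝓞 K)))
        (α : ι → HeightOneSpectrum (𝓞 K) → Fin n → ℂ) (u : ι → VX K → ℂ) (q : ι → ι → ℝ) (κ : ι → ι → Fin N → ℂ)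
        (S' : Finset (HeightOneSpectrum (𝓞 K))) (α' : HeightOneSpectrum (𝓞 K) → Fin n' → ℂ) (w : VX K → ℂ) (q' : ℝ)
        (κ' : Fin N'' → ℂ) (qs : ι → ℝ) (μ : ι → Fin N' → ℂ) (L : ι → ℂ → ℂ) (C : ι → ℝ),
        GLFamily n N S α u q κ → Twists n' N' N'' u S' α' w q' κ' qs μ L → q' * ∏ j, (1 + ‖κ' j‖) ≤ Q' →
        (∀ f, qs f * ∏ j, (1 + ‖μ f j‖) ≤ C f) → (∀ f, ∏ v ∈ S f, Nv v ≤ C f) →
        (∀ f g, q f g * ∏ j, (1 + ‖κ f g j‖) ≤ B * (C f * C g) ^ n) →
        ∀ X : ℝ, A ≤ X → ∃ E : Set ι, E.Finite ∧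
          (E.ncard : ℝ) ≤ X ^ (2 * n * (4 * n + 1) * (1 - σ) / (2 * n + 1 - σ) + ε) ∧
          ∀ f, C f ≤ X → f ∉ E → ∀ s : ℂ, |s.im| ≤ X ^ c →
            (σ ≤ s.re → X ^ (-ε) ≤ ‖L f s‖ ∧ ‖L f s‖ ≤ X ^ ε) ∧
            (1 / 2 ≤ s.re → s.re ≤ σ → ‖L f s‖ ≤ X ^ (n * (σ - s.re) / (2 * n + 1 - σ) + ε))) ∧
    (3 / 4 - (7 * (n : ℝ) + 1) / (4 * (8 * n ^ 2 + n - 1)) < σ →
      2 * (n : ℝ) * (4 * n + 1) * (1 - σ) / (2 * n + 1 - σ) < n + 1) :=
  Pool.Agent.T3h90.CI.main K n N n' N' N'' hn hε hσ hσ1

end Pool.Agent.Results.MP_52e316_nt.LindelofHalfPlaneGLn
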