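import Pool.Agent.T3h43.SL.Fin
import Pool.Agent.T3h43.SL.GUP
import Pool.Agent.T3h43.SL.S2
import Pool.Agent.T3h43.SL.RB
import Pool.Agent.T3h43.SL.Grid
import Pool.Agent.T3h43.SL.LB
import Pool.Agent.T3h43.SL.JN
import Pool.Agent.T3h43.SL.MX
import Pool.Agent.T3h43.SL.DM
import Pool.Agent.W169.HF.AsmD

/-!
# A Speiser theorem for the Grand Lindelöf Hypothesis for `GL(m)`

`π` runs through the L-functions of cuspidal automorphic representations of `GL_m(𝔸_ℚ)` (`CuspidalL m`,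
the analytic data as in the starting file `HeatFlowZeroCount`), `C_π(t) = N ∏ (1 + |i t - μ_j|)` is the
analytic conductor at the height `t`.  Let `A = Q(d/ds)`, `Q ≠ 0`, be any differential operator with
constant coefficients (for example `A = (d/ds)^k`, `Q = X^k`), let `a` be a complex number and `P` a set of
`π` (for example all of them).

`FewLeft P Q a ρ` says: for all positive `δ` the equation `A L(z, π) = a` has `o(log C_π(y))` solutions
(with multiplicity) with `-1 ≤ Re z ≤ 1/2 - ρ - δ` and `|Im z - y| ≤ 1`, uniformly in `π ∈ P` and `y`, as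
`C_π(y) → ∞`.

Theorem.
(1) The Grand Lindelöf Hypothesis holds for `P` if and only if `FewLeft P Q a 0` holds.
(2) For `0 ≤ ρ ≤ 1/2`: `L(1/2 + ρ + i t, π) ≪ C_π(t)^ε` for all `ε > 0`, uniformly in `P`, if and only
if `FewLeft P Q a ρ`; and `FewLeft P Q a ρ` implies `L(1/2 + i t, π) ≪ C_π(t)^(ρ/2 + ε)` (subconvexity for
`ρ < 1/2`).
(3) `FewLeft P Q a (1/2)` holds (unconditionally).
(4) Local form, for single points: a value `|L(1/2 + ρ + i y, π)| > C_π(y)^ε` forces more than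
`δ log C_π(y)` solutions of `A L(z, π) = h(z)` with `-1 ≤ Re z ≤ 1/2 - ρ - δ`, `|Im z - y| ≤ W`, for every
entire `h` that is small near height `y`; here `δ > 0` and `W` depend only on `m`, `Q`, `ρ`, `ε`.
(5) The converse local form.

For `ζ`, `A = 1` and `a = 0` this is Backlund's theorem.  Speiser's theorem says that the Riemann hypothesis
is equivalent to the absence of zeros of `ζ'` on the left of the critical line; by (1) the Lindelöf
hypothesis is equivalent to `ζ'` having few zeros there, and the same holds for all derivatives, all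
`a`-points and all `GL(m)`, uniformly in the conductor.  On the right of the critical line there is no such
criterion, because `L'` may be small there; on the left the functional equation helps.

Proof (modules `Pool.Agent.T3h43.SL`): `|L(1/2 + i y + u)|` has size `C^(|Re u|)` on the left of
`-1/2` away from the trivial zeros, so `A L - h` cannot be small on any disc there (otherwise `L` would be
close to a solution of `A T = 0`, which does not grow like `C^(-u)`); a three circles theorem for functions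
with few zeros, with the lower bound only at the centre, bounds `A L - h` up to the line `Re u = -ρ`; a
solution `T` of `A T = 0` near `L` is excluded by the functional equation and the three lines theorem; the
converse is Jensen's formula.  Project of helper43; parts by helper64 (LB, JN) and helper19 (GINV, GUP);
the library `Pool.Agent.W169.HF` is by helper169 and others (starting files).
-/

set_option autoImplicit false

open Complex
open scoped ComplexConjugate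

namespace Pool.Agent.Results.MP_52e316_nt.SpeiserForLindelof

/-- Analytic data of a cuspidal automorphic representation of `GL_m(𝔸_ℚ)` (not the trivial one for
`m = 1`), normalised as in the problem: conductor `N`, archimedean parameters `μ_j` with `Re μ_j ≤ 1/2` and
`∑ Im μ_j = 0` (the central character is trivial on the positive reals), Satake parameters
`|α_j(p)| ≤ √p`, root number `ε`, and the entire completed L-function `Λ` (gamma factors times Euler product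
for `Re s > 3/2`) with the functional equation, finite order in vertical strips and no zeros in
`Re s > 1` (all known: Godement-Jacquet, Jacquet-Shalika). -/
structure CuspidalL (m : ℕ) where
  /-- the conductor -/
  N : ℝ
  /-- the archimedean parameters -/
  μ : Fin m → ℂ
  /-- the Satake parameters -/
  α : Fin m → ℕ → ℂ
  /-- the root number -/
  ε : ℂ
  /-- the completed L-function -/
  Λ : ℂ → ℂ
  one_le : 1 ≤ N
  re_le : ∀ j, (μ j).re ≤ 1 / 2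
  normalised : ∑ j, (μ j).im = 0
  norm_le : ∀ j, ∀ p : ℕ, p.Prime → ‖α j p‖ ≤ Real.sqrt p
  norm_eq : ‖ε‖ = 1
  entire : Differentiable ℂ Λ
  euler : ∀ s : ℂ, 3 / 2 < s.re → Λ s = (∏ j, Gammaℝ (s - μ j)) *
    ∏' p : Nat.Primes, ∏ j, (1 - α j p * (p : ℂ) ^ (-s))⁻¹
  fe : ∀ s : ℂ, Λ s = ε * (N : ℂ) ^ (1 / 2 - s) * conj (Λ (1 - conj s))
  bdd : ∀ a b : ℝ, ∃ M, ∀ s : ℂ, a ≤ s.re → s.re ≤ b → ‖Λ s‖ ≤ Real.exp (M * (1 + |s.im|))
  ne_zero : ∀ s : ℂ, 1 < s.re → Λ s ≠ 0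

variable {m : ℕ}

/-- The L-function `L(s, π) = Λ(s, π) / ∏ Γ_ℝ(s - μ_j)`. -/
noncomputable def L (π : CuspidalL m) (s : ℂ) : ℂ := π.Λ s * ∏ j, (Gammaℝ (s - π.μ j))⁻¹

/-- The analytic conductor `C_π = N ∏ (1 + |μ_j|)`. -/
noncomputable def C (π : CuspidalL m) : ℝ := π.N * ∏ j, (1 + ‖π.μ j‖)

/-- The analytic conductor at the height `t`: `C_π(t) = N ∏ (1 + |i t - μ_j|)`. -/
noncomputable def Ct (π : CuspidalL m) (t : ℝ) : ℝ := π.N * ∏ j, (1 + ‖(t : ℂ) * I - π.μ j‖)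

/-- The Grand Lindelöf Hypothesis for the `π` in `P`. -/
def GLH (P : CuspidalL m → Prop) : Prop :=
  ∀ ε : ℝ, 0 < ε → ∃ B : ℝ, ∀ π : CuspidalL m, P π → ∀ t : ℝ,
    ‖L π (1 / 2 + (t : ℂ) * I)‖ ≤ B * ((1 + |t|) * C π) ^ ε

/-- `L(1/2 + r + i t, π) ≪ C_π(t)^(a + ε)` for every `ε > 0`, uniformly in `π ∈ P` and `t`. -/
def Size (P : CuspidalL m → Prop) (r a : ℝ) : Prop :=
  ∀ ε : ℝ, 0 < ε → ∃ B : ℝ, ∀ π : CuspidalL m, P π → ∀ t : ℝ,
    ‖L π (1 / 2 + (r : ℂ) + (t : ℂ) * I)‖ ≤ B * Ct π t ^ (a + ε)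

/-- The differential operator `Q(d/ds)` with constant coefficients, applied to `F`. -/
noncomputable def op (Q : Polynomial ℂ) (F : ℂ → ℂ) (s : ℂ) : ℂ := Q.sum fun i c => c * iteratedDeriv i F s

/-- For all positive `δ`, `ε` and `C_π(y)` large: any finitely many solutions `z` of `Q(d/ds) L(z, π) = a`
with `-1 ≤ Re z ≤ 1/2 - ρ - δ` and `|Im z - y| ≤ 1` have total multiplicity at most `ε log C_π(y)`. -/
def FewLeft (P : CuspidalL m → Prop) (Q : Polynomial ℂ) (a : ℂ) (ρ : ℝ) : Prop :=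
  ∀ δ ε : ℝ, 0 < δ → 0 < ε → ∃ C₀ : ℝ, ∀ π : CuspidalL m, P π → ∀ y : ℝ, C₀ ≤ Ct π y → ∀ S : Finset ℂ,
    (∀ z ∈ S, op Q (L π) z = a ∧ -1 ≤ z.re ∧ z.re ≤ 1 / 2 - ρ - δ ∧ |z.im - y| ≤ 1) →
    ∑ z ∈ S, (analyticOrderNatAt (fun s => op Q (L π) s - a) z : ℝ) ≤ ε * Real.log (Ct π y)

/-- A value `|L(1/2 + ρ + i y, π)| > C_π(y)^ε` forces more than `δ log C_π(y)` solutions of
`Q(d/ds) L(z, π) = h(z)` with `-1 ≤ Re z ≤ 1/2 - ρ - δ` and `|Im z - y| ≤ W`, for every entire `h` with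
`|h| ≤ C_π(y)^δ` in the square `|Re z| ≤ W`, `|Im z - y| ≤ W`, once `C_π(y)` is large. -/
def Forced (m : ℕ) (Q : Polynomial ℂ) (ρ : ℝ) : Prop :=
  ∀ ε : ℝ, 0 < ε → ∃ δ W C₀ : ℝ, 0 < δ ∧ ∀ (π : CuspidalL m) (y : ℝ) (h : ℂ → ℂ), C₀ ≤ Ct π y →
    Differentiable ℂ h → (∀ z : ℂ, |z.re| ≤ W → |z.im - y| ≤ W → ‖h z‖ ≤ Ct π y ^ δ) →
    Ct π y ^ ε < ‖L π (1 / 2 + (ρ : ℂ) + (y : ℂ) * I)‖ →
    ∃ S : Finset ℂ, (∀ z ∈ S, op Q (L π) z = h z ∧ -1 ≤ z.re ∧ z.re ≤ 1 / 2 - ρ - δ ∧ |z.im - y| ≤ W) ∧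
      δ * Real.log (Ct π y) < ∑ z ∈ S, (analyticOrderNatAt (fun s => op Q (L π) s - h s) z : ℝ)

/-- The converse: if `|L(1/2 + ρ + i t, π)| ≤ C_π(y)^κ` for `|t - y| ≤ W`, then `Q(d/ds) L(z, π) = h(z)` has
at most `ε log C_π(y)` solutions with `-1 ≤ Re z ≤ 1/2 - ρ - δ`, `|Im z - y| ≤ 1`. -/
def Bounded (m : ℕ) (Q : Polynomial ℂ) (ρ : ℝ) : Prop :=
  ∀ δ ε : ℝ, 0 < δ → 0 < ε → ∃ κ W C₀ : ℝ, 0 < κ ∧ ∀ (π : CuspidalL m) (y : ℝ) (h : ℂ → ℂ), C₀ ≤ Ct π y →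
    Differentiable ℂ h → (∀ z : ℂ, |z.re| ≤ W → |z.im - y| ≤ W → ‖h z‖ ≤ Ct π y ^ κ) →
    (∀ t : ℝ, |t - y| ≤ W → ‖L π (1 / 2 + (ρ : ℂ) + (t : ℂ) * I)‖ ≤ Ct π y ^ κ) →
    ∀ S : Finset ℂ, (∀ z ∈ S, op Q (L π) z = h z ∧ -1 ≤ z.re ∧ z.re ≤ 1 / 2 - ρ - δ ∧ |z.im - y| ≤ 1) →
      ∑ z ∈ S, (analyticOrderNatAt (fun s => op Q (L π) s - h s) z : ℝ) ≤ ε * Real.log (Ct π y)

open Pool.Agent.W169.HF Pool.Agent.T3h43.SL

lemma std (π : CuspidalL m) : Std π.N π.μ π.α π.ε π.Λ :=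
  ⟨{ one_le := π.one_le
     re_le := π.re_le
     norm_le := fun j p hp => by
       rw [← Real.sqrt_eq_rpow]
       exact π.norm_le j p hp
     norm_eq := π.norm_eq
     entire := π.entire
     euler := fun s hs => π.euler s (by linarith)
     fe := π.fe
     bdd := π.bdd }, π.ne_zero⟩

/-- the class of tuples -/
def cls (P : CuspidalL m → Prop) : Cls m := fun N μ α e Λ =>
  ∃ π : CuspidalL m, P π ∧ π.N = N ∧ π.μ = μ ∧ π.α = α ∧ π.ε = e ∧ π.Λ = Λ

lemma rpow_exp {x : ℝ} (hx : 1 ≤ x) (a : ℝ) : x ^ a = Real.exp (a * Real.log x) := by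
  rw [Real.rpow_def_of_pos (by linarith), mul_comm]

lemma C_one (π : CuspidalL m) (t : ℝ) : 1 ≤ (1 + |t|) * C π := by
  have h1 : 1 ≤ ∏ j, (1 + ‖π.μ j‖) := by
    refine Finset.prod_induction _ (fun x => (1 : ℝ) ≤ x) (fun a b ha hb => ?_) le_rfl fun j _ => ?_
    · nlinarith
    · linarith [norm_nonneg (π.μ j)]
  have h2 : 1 ≤ C π := by
    unfold C
    have := π.one_le
    nlinarith
  have := abs_nonneg t
  nlinarith

lemma size_iff (P : CuspidalL m → Prop) (r a : ℝ) : Size P r a ↔ SEr (cls P) r a := by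
  constructor
  · intro h ε hε
    obtain ⟨B, HB⟩ := h ε hε
    refine ⟨Real.log (max B 1), ?_⟩
    rintro N μ α e Λ ⟨π, hP, rfl, rfl, rfl, rfl, rfl⟩ _ y
    have hB : 0 < max B 1 := lt_max_of_lt_right one_pos
    refine (HB π hP y).trans ?_
    have h1 : 1 ≤ cnd π.N π.μ y := cnd_pos π.one_le π.μ y
    change B * cnd π.N π.μ y ^ (a + ε) ≤ _
    rw [rpow_exp h1, Real.exp_add, Real.exp_log hB]
    exact mul_le_mul_of_nonneg_right (le_max_left _ _) (Real.exp_pos _).le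
  · intro h ε hε
    obtain ⟨B, HB⟩ := h ε hε
    refine ⟨Real.exp B, fun π hP t => ?_⟩
    have h2 := HB π.N π.μ π.α π.ε π.Λ ⟨π, hP, rfl, rfl, rfl, rfl, rfl⟩ (std π) t
    have h1 : 1 ≤ cnd π.N π.μ t := cnd_pos π.one_le π.μ t
    change _ ≤ Real.exp B * cnd π.N π.μ t ^ (a + ε)
    rw [rpow_exp h1, ← Real.exp_add]
    exact h2

lemma few_iff (P : CuspidalL m → Prop) (Q : Polynomial ℂ) (a : ℂ) (ρ : ℝ) :
    FewLeft P Q a ρ ↔ FL (cls P) Q a ρ := by
  constructor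
  · intro h δ ε hδ hε
    obtain ⟨C0, H⟩ := h δ ε hδ hε
    refine ⟨C0, ?_⟩
    rintro N μ α e Λ ⟨π, hP, rfl, rfl, rfl, rfl, rfl⟩ _ y hC S hS
    exact H π hP y hC S fun z hz => ⟨sub_eq_zero.1 (hS z hz).1, (hS z hz).2⟩
  · intro h δ ε hδ hε
    obtain ⟨C0, H⟩ := h δ ε hδ hε
    refine ⟨C0, fun π hP y hC S hS => ?_⟩
    exact H π.N π.μ π.α π.ε π.Λ ⟨π, hP, rfl, rfl, rfl, rfl, rfl⟩ (std π) y hC S
      fun z hz => ⟨sub_eq_zero.2 (hS z hz).1, (hS z hz).2⟩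

lemma glh_to (hm : 1 ≤ m) (P : CuspidalL m → Prop) : GLH P ↔ SE (cls P) 0 := by
  have hm' : (1 : ℝ) ≤ m := by exact_mod_cast hm
  constructor
  · intro h ε hε
    obtain ⟨B, HB⟩ := h (ε / (m + 2)) (by positivity)
    refine ⟨Real.log (max B 1), ?_⟩
    rintro N μ α e Λ ⟨π, hP, rfl, rfl, rfl, rfl, rfl⟩ _ y
    have hB : 0 < max B 1 := lt_max_of_lt_right one_pos
    refine (HB π hP y).trans ?_
    rw [rpow_exp (C_one π y), Real.exp_add, Real.exp_log hB]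
    refine mul_le_mul (le_max_left _ _) (Real.exp_le_exp.2 ?_) (Real.exp_pos _).le hB.le
    have h1 := (cnd_norm π.one_le π.μ hm π.normalised y).1
    change Real.log ((1 + |y|) * C π) ≤ _ at h1
    rw [div_mul_eq_mul_div, div_le_iff₀ (by positivity), zero_add]
    have h2 := mul_le_mul_of_nonneg_left h1 hε.le
    linarith
  · intro h ε hε
    obtain ⟨B, HB⟩ := h (ε / m) (by positivity)
    refine ⟨Real.exp B, fun π hP t => ?_⟩
    have h2 := HB π.N π.μ π.α π.ε π.Λ ⟨π, hP, rfl, rfl, rfl, rfl, rfl⟩ (std π) t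
    refine h2.trans ?_
    rw [rpow_exp (C_one π t), ← Real.exp_add]
    apply Real.exp_le_exp.2
    have h1 := (cnd_norm π.one_le π.μ hm π.normalised t).2
    change _ ≤ (m : ℝ) * Real.log ((1 + |t|) * C π) at h1
    have h3 : (0 + ε / m) * Real.log (cnd π.N π.μ t) ≤ ε * Real.log ((1 + |t|) * C π) := by
      rw [zero_add, div_mul_eq_mul_div, div_le_iff₀ (by positivity)]
      have h4 := mul_le_mul_of_nonneg_left h1 hε.le
      linarith
    linarith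

lemma lb : S_LB := t_LB t_PG t_GRID

lemma upr : S_UPR := t_UPR rect_all

lemma sb : S_B := t_B upr (t_JN lb)

lemma sa : S_A := t_A (t_S2 t_PG t_GRID (t_RB rect_all)) (t_MX lb upr t_DM) sb

lemma sloc : S_LOC := t_LOC t_GINV t_GUP

lemma forced (hm : 1 ≤ m) {Q : Polynomial ℂ} (hQ : Q ≠ 0) {ρ : ℝ} (hρ0 : 0 ≤ ρ) (hρ1 : ρ ≤ 1 / 2) :
    Forced m Q ρ := by
  intro ε hε
  obtain ⟨δ, W, C0, hδ, -, H⟩ := locA sa sloc hm hQ hρ0 hρ1 hε
  refine ⟨δ, W, C0, hδ, ?_⟩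
  intro π y h hC hh hb hval
  have h1 : 1 ≤ Ct π y := cnd_pos π.one_le π.μ y
  by_contra hcon
  push Not at hcon
  have key := H π.N π.μ π.α π.ε π.Λ (std π) y hC h hh (fun z a1 a2 => by
    have := hb z a1 a2
    rwa [rpow_exp h1] at this)
    (fun S hS => hcon S fun z hz => ⟨sub_eq_zero.1 (hS z hz).1, (hS z hz).2⟩)
  rw [rpow_exp h1] at hval
  exact absurd key (not_le.2 hval)

lemma bounded (hm : 1 ≤ m) {Q : Polynomial ℂ} (hQ : Q ≠ 0) {ρ : ℝ} (hρ0 : 0 ≤ ρ) (hρ1 : ρ ≤ 1 / 2) :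
    Bounded m Q ρ := by
  intro δ ε hδ hε
  obtain ⟨κ, W, C0, hκ, -, H⟩ := locB sb sloc hm hQ hρ0 hρ1 hδ hε
  refine ⟨κ, W, C0, hκ, ?_⟩
  intro π y h hC hh hb hline S hS
  have h1 : 1 ≤ Ct π y := cnd_pos π.one_le π.μ y
  exact H π.N π.μ π.α π.ε π.Λ (std π) y hC h hh (fun z a1 a2 => by
    have := hb z a1 a2
    rwa [rpow_exp h1] at this)
    (fun t ht => by
      have := hline t ht
      rwa [rpow_exp h1] at this)
    S (fun z hz => ⟨sub_eq_zero.2 (hS z hz).1, (hS z hz).2⟩)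

/-- **Main theorem.** Let `m ≥ 1`, let `Q ≠ 0` be a polynomial, `a` a complex number and `P` a set of `π`.
(1) GLH for `P` is equivalent to `FewLeft P Q a 0`; (2) for `0 ≤ ρ ≤ 1/2`, `FewLeft P Q a ρ` is equivalent to
`L(1/2 + ρ + i t, π) ≪ C_π(t)^ε` and implies `L(1/2 + i t, π) ≪ C_π(t)^(ρ/2 + ε)`; (3) `FewLeft P Q a (1/2)`
holds; (4), (5) the local forms. -/
theorem result (hm : 1 ≤ m) (Q : Polynomial ℂ) (hQ : Q ≠ 0) (a : ℂ) (P : CuspidalL m → Prop) :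
    (GLH P ↔ FewLeft P Q a 0) ∧
    (∀ ρ : ℝ, 0 ≤ ρ → ρ ≤ 1 / 2 →
      (Size P ρ 0 ↔ FewLeft P Q a ρ) ∧ (FewLeft P Q a ρ → Size P 0 (ρ / 2))) ∧
    FewLeft P Q a (1 / 2) ∧
    (∀ ρ : ℝ, 0 ≤ ρ → ρ ≤ 1 / 2 → Forced m Q ρ) ∧
    (∀ ρ : ℝ, 0 ≤ ρ → ρ ≤ 1 / 2 → Bounded m Q ρ) := by
  have key : ∀ ρ : ℝ, 0 ≤ ρ → ρ ≤ 1 / 2 → (SEr (cls P) ρ 0 ↔ FL (cls P) Q a ρ) := fun ρ h0 h1 =>
    ⟨ser_fl sb sloc hm hQ (cls P) a h0 h1, fl_ser sa sloc hm hQ (cls P) a h0 h1⟩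
  refine ⟨?_, fun ρ h0 h1 => ⟨?_, fun h => ?_⟩, ?_, fun ρ h0 h1 => forced hm hQ h0 h1,
    fun ρ h0 h1 => bounded hm hQ h0 h1⟩
  · rw [glh_to hm, few_iff, ← key 0 le_rfl (by norm_num), ser0]
  · rw [size_iff, few_iff]
    exact key ρ h0 h1
  · rw [few_iff, ← key ρ h0 h1] at h
    rw [size_iff]
    exact ser_mid rect_all sloc hm (cls P) h0 h1 h
  · rw [few_iff, ← key (1 / 2) (by norm_num) le_rfl]
    have := conv_ser (P := cls P) hm (1 / 2) (by norm_num) le_rfl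
    rwa [show ((1 / 2 : ℝ) - 1 / 2) / 2 = 0 by norm_num] at this

end Pool.Agent.Results.MP_52e316_nt.SpeiserForLindelof
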