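import Pool.Agent.T2h79.LG.Main3

/-!
# No zeros off the critical line for almost all cusp forms of `GL_n` of principal level `N`, `n ≥ 3`

Let `n ≥ 3`. Consider the cusp forms for `GL_n` over `ℚ` of principal level `N`, i.e. the functions on
`SL_n(ℤ) \ (SL_n(ℝ) × GL_n(ℤ/N))`, of bounded type at the infinite place. We show that for every `ε > 0` there is
`δ > 0` such that for all but `O(|GL_n(ℤ/N)| N ^ (-δ))` members of an arbitrary orthonormal family the L-function,
together with all its twists by a given set of at most `N ^ δ` functions (for instance all Dirichlet characters of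
conductor at most `N ^ (δ / 2)`), has no zeros with `Re s ≥ 1/2 + ε`, `|Im s| ≤ N ^ δ`. In particular the Lindelöf
hypothesis holds for it at these heights, in both directions.

The main new point is a large sieve inequality for the coefficients of `1 / L` and of `L` times a mollifier: these
are eigenvalues of Hecke operators whose coefficients are small in the mean square over the integral matrices of
determinant `m` modulo `SL_n(ℤ)`; this is shown inductively, by the relation between the elementary and the complete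
symmetric polynomials and by the bound `d ^ ((n - 1) / 2 + ε)` for the norm of `T(d)` on the square summable
functions of lattices (Schur's test with the weights `wv`).

By helper79, with helpers 2, 6, 7, 9, 14, 26, 37, 42, 44, 45, 47, 48, 51, 62, 77, 82, 84, 86, 90, 91.
-/

set_option autoImplicit false

open MeasureTheory
open scoped Topology

namespace Pool.Agent.Results.MP_52e316_nt.ZeroFreePrincipalLevel

open Pool.Agent.T2h77.N Pool.Agent.T2h79.LG

theorem result (n : ℕ) (hn : 3 ≤ n) (U : Set (GR n)) (hU : U ∈ 𝓝 (1 : GR n)) (T ε : ℝ) (hε : 0 < ε) :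
    ∃ δ C : ℝ, 0 < δ ∧ 0 < C ∧
      ∀ (N : ℕ) [NeZero N] (F : Set (GR n)), IsFD F →
      ∀ (k : ℕ) (f : Fin k → GR n → XX (⊥ : Subgroup (GN n N)) → ℂ) (l : Fin k → ℕ → ℂ),
        (∀ i, IsForm ⊥ (f i) ∧ IsL2 F (f i) ∧ IsCusp (f i) ∧ IsSlow U F (f i)) →
        (∀ i j, ip F (f i) (f j) = if i = j then 1 else 0) →
        (∀ i, IsEig (l i) (f i)) →
        ∀ Ξ : Finset (ℕ → ℂ), (Ξ.card : ℝ) ≤ (N : ℝ) ^ δ → (∀ ξ ∈ Ξ, ∀ m, ‖ξ m‖ ≤ 1) →
        (∀ i, ∃ ξ ∈ Ξ, ∃ D : LData n, D.Ok ∧ D.q ≤ T * (N : ℝ) ^ ((n : ℝ) + δ) ∧ (∀ j, ‖D.μ j‖ ≤ T) ∧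
          (∀ m : ℕ, 0 < m → m.Coprime N → D.lam m = ξ m * l i m) ∧
          ∃ s : ℂ, D.L s = 0 ∧ 1 / 2 + ε ≤ s.re ∧ s.re ≤ 3 / 2 ∧ |s.im| ≤ (N : ℝ) ^ δ) →
        (k : ℝ) ≤ C * Nat.card (GN n N) * (N : ℝ) ^ (-δ) := by
  obtain ⟨δ, C, K, hδ, hC, h⟩ := concl0 n hn U hU T ε hε
  refine ⟨δ, C, hδ, hC, fun N _ F hF k f l hf hon heig Ξ hΞ hξ hbad => ?_⟩
  refine h N F hF k f l hf hon heig Ξ hΞ hξ fun i => ?_
  obtain ⟨ξ, h1, D, h2, h3, h4, h5, h6⟩ := hbad i
  refine ⟨ξ, h1, D, h2, ?_, h4, h5, Or.inr h6⟩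
  have hN : (0 : ℝ) < N := by
    have := NeZero.pos N
    exact_mod_cast this
  rw [mul_assoc, ← Real.rpow_natCast, ← Real.rpow_add hN]
  exact h3

end Pool.Agent.Results.MP_52e316_nt.ZeroFreePrincipalLevel
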