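import Mathlib
import Pool.Agent.H983R4.GL.F3
import Pool.Agent.H855R2.SF.Dir
import Pool.Agent.T2h09.LD.Glob

/-!
# Zeros and small values of the derivatives of L-functions of `GL(m)` decide the Lindelöf hypothesis

Let `L_i = L(s, π_i)` be L-functions of cuspidal representations of `GL(m)`, normalised as in the problem, let `T_i` be
real numbers (`i` runs through any set, the same `π` may occur with many heights), let `x_i = (1 + |T_i|) C(π_i)` and
let `q_i = N ∏ (1 + |μ_j - i T_i|)` be the analytic conductor at height `T_i`, so that the mean number of zeros with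
ordinates in an interval of length `r` near `T_i` is `(r / 2π) log q_i`. We consider the functions

  `F_i = (d/ds - w_1) ⋯ (d/ds - w_k) L_i - h_i`,

where `k ≥ 0` is bounded, the complex numbers `w_j` are `O(x_i^ε)` with `Re w_j ≥ -ε log x_i` (for each `ε > 0`, if
`x_i` is large), and `h_i` is an entire function which is `O(x_i^(κ + ε))` near the critical line, at bounded distance
from `T_i`. All these data may depend on `i`, that is on the L-function **and** on the height. Examples: the derivatives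
`L^(k)` and their `a`-points, `F = L^(k) - a` with `a = O(x^ε)`.

1. **Law for large values.** If `V = |L_i(1/2 + i T_i)| ≥ x_i^(κ + ε)` and `D = log q_i - 4 log V + ε log x_i` then, for
   `x_i` large, `D > 0` and at bounded distance from `1/2 + i T_i` there is a point `s₁`, as close to the critical line as
   we wish, with `|F_i(s₁)| ≥ x_i^(-ε) V` and `∑ log (R / |ρ - s₁|) ≤ (R / π) D`, the sum over the zeros `ρ` of `F_i` with
   `|ρ - s₁| ≤ R`, with multiplicities, for small `R > 0` (zeros on the critical line with the mean density would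
   give `(R / π) log q_i`); the same bound `+ 1` holds for points with separated ordinates at which
   `|F_i| ≤ x_i^(-ε/2) V`.
2. **Zeros.** Let, for every `ε > 0`, there be arbitrarily small `r > 0` such that for `x_i` large all the boxes
   `|Re s - 1/2| ≤ r`, `t ≤ Im s < t + r` at bounded distance from `T_i` contain at least
   `(1 - δ) (r / 2π) log q_i - ε r log x_i` zeros of `F_i`. Then `L_i(1/2 + i T_i) = O(x_i^ε max(x_i^κ, q_i^(δ/4)))`.
3. **Small values.** If these boxes contain at least `(1/θ) (r / 2π) log q_i - ε r log x_i` points at which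
   `|F_i| ≤ x_i^(κ + ε)` and whose ordinates are separated by `η / log x_i`, then
   `L_i(1/2 + i T_i) = O(x_i^ε max(x_i^κ, q_i^((1 - 1/θ)/4)))`; conversely the bound `O(x_i^(κ + ε))` near `T_i` gives
   such points, for every `θ > 0`.
4. **The Grand Lindelöf Hypothesis for a family** (all `π`, all heights) is equivalent to the existence of such small
   values of `F` (`κ = 0`), for all `θ > 1`, for one (equivalently, for each) choice of `F`; and it follows, if for all
   `δ > 0` the zeros of `F` have the density 2. This holds in particular for the derivatives `F = L^(k)`, where `k ≤ K`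
   may depend on `π` and on the height.

Known before: for `F = L` (`k = 0`, `h = 0`, all heights) the criteria 2. and 3. are `DensityCriterionGLm`, a starting
result for this problem. Here they are extended to the derivatives, of any order, to `a`-points (with multiplicities), and
to one height for each L-function, for instance to the central values. For the derivatives the maximum of `|L|` need not
be a point where `L^(k)` is large; it can be zero there.

The theorem uses only classical facts: the functional equation, `Re μ_j < 1/2`, finite order, and Molteni's bound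
`L(σ + it, π) = O(C_π^ε)` in `σ ≥ 1 + ε`. For primitive Dirichlet characters of modulus `q > 1` (`m = 1`) all of them are
proved and the result holds with `X = Q = q (1 + |T|)`.

Proof. Near a weighted maximum `s₀` on the critical line, `|L(s₀ + z)|`, multiplied by `Q^(Re z / 2)` and a Gaussian
factor, is at most `M exp(τ |Re z|)` with `2τ ≤ log Q - 4 log V + ε log X` (`Pool.Agent.TH804.DL`). Hence `|L|` decreases to
the right of `s₀` at least like `exp(-2 Re z log V)`, roughly. The equation `u' - w u = v` is solved by integration along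
the horizontal segment `[s₀, s₀ + ρ]`, from the right to the left: if `v` is small on the segment, so is `u`, because
`u` is very small at the right end and `Re w ≥ -o(log X)`. Iterating this over the factors `d/ds - w_j`, we see that
`F` takes a value of size `≥ X^(-ε) V` on this segment. Upper bounds for `F` follow from Cauchy's estimates on discs of
radius `1 / log X`. Now Jensen's formula with centre at this point of the segment gives the law for the zeros, and, after
an interpolation polynomial is subtracted, for the small values.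
-/

set_option autoImplicit false

open Filter Topology MeasureTheory Real Set

namespace Pool.Agent.Results.MP_52e316_nt.ZerosOfDerivativesGLm

open Pool.Agent.T2h09.LD (Op Tame SmallP DL FF Dense ZeroDense NearExp Expo)

/-- The data of a standard L-function of `GL(m)`: the conductor `N`, the archimedean parameters `mu j` (the
factor at infinity is `∏ j, Γ_ℝ (s - mu j)`) and the L-function `f` (continued to the complex plane). -/
structure Datum (m : ℕ) where
  N : ℕ
  mu : Fin m → ℂ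
  f : ℂ → ℂ

/-- The analytic conductor `C = N ∏ j, (1 + |mu j|)`. -/
noncomputable def Datum.C {m : ℕ} (D : Datum m) : ℝ := D.N * ∏ j, (1 + ‖D.mu j‖)

/-- The analytic conductor at height `t`, `Q = N ∏ j, (1 + |mu j - i t|)`. -/
noncomputable def Datum.Q {m : ℕ} (D : Datum m) (t : ℝ) : ℝ :=
  D.N * ∏ j, (1 + ‖D.mu j - t * Complex.I‖)

/-- The classical properties: `N ≥ 1`, `Re (mu j) < 1/2`, `f` is entire, of finite order in the strip
`-1/4 ≤ Re s ≤ 5/4`, and satisfies the functional equation `Λ(s) = root N^(1/2-s) conj (Λ(1 - conj s))`,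
`Λ(s) = f(s) ∏ j, Γ_ℝ (s - mu j)`, with `|root| = 1` (divided by the gamma factors of both sides). -/
structure Datum.Ok {m : ℕ} (D : Datum m) : Prop where
  N_pos : 0 < D.N
  mu_re : ∀ j, (D.mu j).re < 1 / 2
  entire : Differentiable ℂ D.f
  order : ∃ A : ℝ, ∀ s : ℂ, -1 / 4 ≤ s.re → s.re ≤ 5 / 4 →
    ‖D.f s‖ ≤ Real.exp (A * (1 + |s.im|) ^ A)
  fe : ∃ root : ℂ, ‖root‖ = 1 ∧ ∀ s : ℂ,
    D.f s * ∏ j, (Complex.Gammaℝ (1 - s - (starRingEnd ℂ) (D.mu j)))⁻¹ =
      root * (D.N : ℂ) ^ (1 / 2 - s) * (starRingEnd ℂ) (D.f (1 - (starRingEnd ℂ) s)) *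
        ∏ j, (Complex.Gammaℝ (s - D.mu j))⁻¹

/-- Molteni's bound to the right of the critical strip, uniform in the family. -/
def Molteni {ι : Type} {m : ℕ} (D : ι → Datum m) : Prop := ∀ ε : ℝ, 0 < ε → ∃ B : ℝ, ∀ (i : ι) (s : ℂ),
  1 + ε ≤ s.re → ‖(D i).f s‖ ≤ B * (D i).C ^ ε

variable {ι : Type}

/-- The law for large values, assertion 1. of the introduction. -/
def LargeValueLaw (L : ι → ℂ → ℂ) (T x q : ι → ℝ) (w : ι → List ℂ) (h : ι → ℂ → ℂ) (κ : ℝ) : Prop :=
  ∀ ε : ℝ, 0 < ε → ε ≤ 1 → ∃ W R₀ : ℝ, 0 < R₀ ∧ ∀ R ρ : ℝ, 0 < R → R ≤ R₀ → 0 < ρ →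
    ∃ X₁ : ℝ, ∀ i, X₁ ≤ x i → x i ^ (κ + ε) ≤ ‖L i (1 / 2 + T i * Complex.I)‖ →
      0 < DL L T x q i ε ∧
      ∃ T₀ u : ℝ, |T₀ - T i| ≤ W ∧
        ‖L i (1 / 2 + T i * Complex.I)‖ ≤ ‖L i (1 / 2 + T₀ * Complex.I)‖ ∧ 0 ≤ u ∧ u ≤ ρ ∧
        x i ^ (-ε) * ‖L i (1 / 2 + T i * Complex.I)‖ ≤ ‖FF L w h i (1 / 2 + T₀ * Complex.I + u)‖ ∧
        (∀ S : Finset ℂ, (∀ s ∈ S, ‖s - (1 / 2 + T₀ * Complex.I + u)‖ ≤ R) →
          ∑ s ∈ S, (analyticOrderNatAt (FF L w h i) s : ℝ) *
            Real.log (R / ‖s - (1 / 2 + T₀ * Complex.I + u)‖) ≤ R / Real.pi * DL L T x q i ε) ∧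
        ∀ (η : ℝ) (S : Finset ℂ), 0 < η → R ≤ R₀ * η → η ≤ 1 →
          (∀ s ∈ S, ‖s - (1 / 2 + T₀ * Complex.I + u)‖ ≤ R) →
          (∀ s ∈ S, ‖FF L w h i s‖ ≤ x i ^ (-(ε / 2)) * ‖L i (1 / 2 + T i * Complex.I)‖) →
          (∀ s ∈ S, ∀ s' ∈ S, s ≠ s' → η / Real.log (x i) ≤ |s.im - s'.im|) →
          ∑ s ∈ S, Real.log (R / ‖s - (1 / 2 + T₀ * Complex.I + u)‖) ≤
            R / Real.pi * DL L T x q i ε + 1

/-- Assertions 1., 2., 3. of the introduction, for L-functions `L i` with conductors `x i`, `q i` at the height `T i`. -/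
def Local (L : ι → ℂ → ℂ) (T x q : ι → ℝ) : Prop :=
  ∀ (w : ι → List ℂ) (h : ι → ℂ → ℂ) (κ : ℝ), 0 ≤ κ → Tame x w → SmallP T x h κ →
    LargeValueLaw L T x q w h κ ∧
    (∀ δ : ℝ, 0 ≤ δ → δ ≤ 1 → ZeroDense (FF L w h) T x q δ → ∀ ε : ℝ, 0 < ε → ∃ B : ℝ, ∀ i : ι,
      ‖L i (1 / 2 + T i * Complex.I)‖ ≤ B * x i ^ ε * max (x i ^ κ) (q i ^ (δ / 4))) ∧
    (∀ θ : ℝ, 0 < θ → Dense (FF L w h) T x q θ κ → ∀ ε : ℝ, 0 < ε → ∃ B : ℝ, ∀ i : ι,
      ‖L i (1 / 2 + T i * Complex.I)‖ ≤ B * x i ^ ε * max (x i ^ κ) (q i ^ ((1 - 1 / θ) / 4))) ∧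
    (NearExp L T x κ → ∀ θ : ℝ, 0 < θ → Dense (FF L w h) T x q θ κ)

/-- Assertion 4. of the introduction, for a family `L i` with the conductors `X i T`, `Q i T` at the height `T`. The
index of the functions `F` is the pair `(i, T)`. -/
def Global (L : ι → ℂ → ℂ) (X Q : ι → ℝ → ℝ) : Prop :=
  (∀ (w : ι × ℝ → List ℂ) (h : ι × ℝ → ℂ → ℂ), Tame (fun p => X p.1 p.2) w →
    (∀ κ : ℝ, 0 ≤ κ → SmallP (fun p => p.2) (fun p => X p.1 p.2) h κ → ∀ θ : ℝ, 0 < θ → θ ≤ 1 →
      (Expo L X κ ↔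
        Dense (FF (fun p => L p.1) w h) (fun p => p.2) (fun p => X p.1 p.2) (fun p => Q p.1 p.2) θ κ)) ∧
    (SmallP (fun p => p.2) (fun p => X p.1 p.2) h 0 →
      (Expo L X 0 ↔ ∀ θ : ℝ, 1 < θ →
        Dense (FF (fun p => L p.1) w h) (fun p => p.2) (fun p => X p.1 p.2) (fun p => Q p.1 p.2) θ 0) ∧
      ((∀ δ : ℝ, 0 < δ →
        ZeroDense (FF (fun p => L p.1) w h) (fun p => p.2) (fun p => X p.1 p.2) (fun p => Q p.1 p.2) δ) →
        Expo L X 0))) ∧
  ∀ (K : ℕ) (k : ι × ℝ → ℕ), (∀ p, k p ≤ K) →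
    (Expo L X 0 ↔ ∀ θ : ℝ, 1 < θ →
      Dense (fun p => iteratedDeriv (k p) (L p.1)) (fun p => p.2) (fun p => X p.1 p.2)
        (fun p => Q p.1 p.2) θ 0) ∧
    ((∀ δ : ℝ, 0 < δ →
      ZeroDense (fun p => iteratedDeriv (k p) (L p.1)) (fun p => p.2) (fun p => X p.1 p.2)
        (fun p => Q p.1 p.2) δ) → Expo L X 0)

/-- The conclusion for a family `L i` with the conductors `X i T` and `Q i T` at height `T`. -/
def Conclusion (L : ι → ℂ → ℂ) (X Q : ι → ℝ → ℝ) : Prop :=
  (∀ T : ι → ℝ, Local L T (fun i => X i (T i)) (fun i => Q i (T i))) ∧ Global L X Q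

section proofs

open Pool.Agent.H983R4.GL H855R2.SF W587.PL

theorem local_of {L : ι → ℂ → ℂ} {X Q : ι → ℝ → ℝ} (H : Fam2 L X Q) (T : ι → ℝ) :
    Local L T (fun i => X i (T i)) (fun i => Q i (T i)) := by
  intro w h κ hκ hw hh
  refine ⟨fun ε hε hε1 => ?_, fun δ h0 h1 hZ ε hε => T2h09.LD.bound_of_zeros H T hκ hw hh h0 h1 hZ hε,
    fun θ hθ hD ε hε => T2h09.LD.bound_of_dense H T hκ hw hh hθ hD hε,
    fun hE θ hθ => T2h09.LD.dense_of_near H T hκ hw hh hE hθ⟩
  obtain ⟨W, R₀, _, hR₀, _, hl⟩ := T2h09.LD.law H T hκ hw hh hε hε1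
  refine ⟨W, R₀, hR₀, fun R ρ hR hRle hρ => ?_⟩
  obtain ⟨X₁, _, h1⟩ := hl R ρ hR hRle hρ
  exact ⟨X₁, h1⟩

theorem ff_replicate (L : ι → ℂ → ℂ) (k : ι × ℝ → ℕ) :
    FF (fun p : ι × ℝ => L p.1) (fun p => List.replicate (k p) 0) (fun _ _ => 0) =
      fun p => iteratedDeriv (k p) (L p.1) := by
  funext p s
  unfold FF
  rw [T2h09.LD.op_replicate, sub_zero]

theorem global_of {L : ι → ℂ → ℂ} {X Q : ι → ℝ → ℝ} (H : Fam2 L X Q) : Global L X Q := by
  refine ⟨fun w h hw => ⟨fun κ hκ hh θ hθ hθ1 => T2h09.LD.expo_iff_dense H hκ hw hh hθ hθ1,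
    fun hh => ⟨T2h09.LD.lindelof_iff_dense H hw hh, T2h09.LD.lindelof_of_zeros H hw hh⟩⟩, fun K k hk => ?_⟩
  have hw : Tame (fun p : ι × ℝ => X p.1 p.2) (fun p => List.replicate (k p) 0) := by
    refine ⟨⟨K, fun p => by rw [List.length_replicate]; exact hk p⟩, fun η hη => ⟨1, fun p hp a ha => ?_⟩⟩
    obtain rfl := List.eq_of_mem_replicate ha
    rw [norm_zero, Complex.zero_re]
    have h1 := H.X1 p.1 p.2
    refine ⟨by positivity, ?_⟩
    have h2 : 0 ≤ η * Real.log (X p.1 p.2) := mul_nonneg hη.le (Real.log_nonneg h1)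
    linarith
  have hh : SmallP (fun p : ι × ℝ => p.2) (fun p => X p.1 p.2) (fun _ _ => 0) 0 := by
    refine ⟨fun p => differentiable_const _, fun ε W hε => ⟨1, 1, one_pos, fun p s hp _ _ => ?_⟩⟩
    rw [norm_zero]
    have h1 := H.X1 p.1 p.2
    positivity
  have h1 := T2h09.LD.lindelof_iff_dense H hw hh
  have h2 := T2h09.LD.lindelof_of_zeros H hw hh
  rw [T2h09.LD.GF, ff_replicate] at h1 h2
  exact ⟨h1, h2⟩

theorem conclusion_of {L : ι → ℂ → ℂ} {X Q : ι → ℝ → ℝ} (H : Fam2 L X Q) : Conclusion L X Q :=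
  ⟨local_of H, global_of H⟩

theorem Datum.C_one {m : ℕ} {D : Datum m} (h : 0 < D.N) : 1 ≤ D.C := by
  have := cond_one_le h D.mu 0
  unfold Datum.C
  simpa using this

theorem Datum.Q_le {m : ℕ} {D : Datum m} (t : ℝ) : D.Q t ≤ (1 + |t|) ^ (m : ℝ) * D.C := by
  have h2 := cond_shift D.N D.mu 0 t
  have e1 : D.N * ∏ j, (1 + ‖D.mu j - ((0 : ℝ) : ℂ) * Complex.I‖) = D.C := by
    unfold Datum.C; simp
  rw [e1, zero_add] at h2
  exact h2

theorem Datum.Q_le' {m : ℕ} {D : Datum m} (h : 0 < D.N) (t : ℝ) :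
    D.Q t ≤ ((1 + |t|) * D.C) ^ (m + 1 : ℝ) := by
  have h1 := Datum.C_one h
  have ht : 1 ≤ 1 + |t| := by linarith [abs_nonneg t]
  refine (Datum.Q_le t).trans ?_
  rw [Real.mul_rpow (by positivity) (by linarith)]
  refine mul_le_mul ?_ ?_ (by linarith) (by positivity)
  · exact Real.rpow_le_rpow_of_exponent_le ht (by linarith)
  · conv_lhs => rw [← Real.rpow_one D.C]
    exact Real.rpow_le_rpow_of_exponent_le h1 (by
      have : (0 : ℝ) ≤ m := Nat.cast_nonneg _
      linarith)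

theorem X_shift {m : ℕ} {D : Datum m} (h : 0 < D.N) (t u : ℝ) :
    (1 + |t + u|) * D.C ≤ (1 + |u|) * ((1 + |t|) * D.C) := by
  have h1 := Datum.C_one h
  have h2 : 1 + |t + u| ≤ (1 + |u|) * (1 + |t|) := by
    have := abs_add_le t u
    nlinarith [abs_nonneg t, abs_nonneg u, mul_nonneg (abs_nonneg t) (abs_nonneg u)]
  calc (1 + |t + u|) * D.C ≤ ((1 + |u|) * (1 + |t|)) * D.C :=
        mul_le_mul_of_nonneg_right h2 (by linarith)
    _ = _ := by ring

theorem right_gl {m : ℕ} {D : ι → Datum m} (hD : ∀ i, (D i).Ok) (hM : Molteni D) :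
    ∀ δ : ℝ, 0 < δ → ∃ B : ℝ, ∀ i (s : ℂ), 1 + δ ≤ s.re →
      ‖(D i).f s‖ ≤ B * ((1 + |s.im|) * (D i).C) ^ δ := by
  intro δ hδ
  obtain ⟨B, hB⟩ := hM δ hδ
  refine ⟨|B|, fun i s hs => ?_⟩
  have h1 := Datum.C_one (hD i).N_pos
  refine (hB i s hs).trans ?_
  have h2 : (D i).C ≤ (1 + |s.im|) * (D i).C := by
    nlinarith [abs_nonneg s.im]
  calc B * (D i).C ^ δ ≤ |B| * (D i).C ^ δ :=
        mul_le_mul_of_nonneg_right (le_abs_self B) (Real.rpow_nonneg (by linarith) _)
    _ ≤ _ := mul_le_mul_of_nonneg_left (Real.rpow_le_rpow (by linarith) h2 hδ.le) (abs_nonneg B)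

theorem refl_gl {m : ℕ} {D : Datum m} (hD : D.Ok) {x t : ℝ} (hx0 : 0 ≤ x) (hx1 : x ≤ 3 / 4) :
    ‖D.f ⟨1 / 2 - x, t⟩‖ ≤ 16 ^ m * D.Q t ^ x * ‖D.f ⟨1 / 2 + x, t⟩‖ := by
  obtain ⟨root, hroot, hfe⟩ := hD.fe
  exact refl_of_fe hD.N_pos D.mu hD.mu_re hroot hfe hx0 hx1

theorem afam_gl {m : ℕ} {D : ι → Datum m} (hD : ∀ i, (D i).Ok) (hM : Molteni D) :
    AFam (m + 1 : ℝ) (fun i => (D i).f) (fun i t => ((1 + |t|) * (D i).C) ^ (m + 1 : ℝ)) where
  m0 := by positivity
  Q1 := by
    intro i t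
    refine Real.one_le_rpow ?_ (by positivity)
    have h1 := Datum.C_one (hD i).N_pos
    nlinarith [abs_nonneg t]
  Qs := by
    intro i t u
    have h1 := Datum.C_one (hD i).N_pos
    rw [← Real.mul_rpow (by positivity) (by positivity)]
    exact Real.rpow_le_rpow (by positivity) (X_shift (hD i).N_pos t u) (by positivity)
  diff := fun i => (hD i).entire
  order := fun i => (hD i).order
  right := by
    intro δ hδ
    obtain ⟨B, hB⟩ := right_gl hD hM δ hδ
    refine ⟨|B|, fun i s hs => ?_⟩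
    have h1 := Datum.C_one (hD i).N_pos
    have h0 : 1 ≤ (1 + |s.im|) * (D i).C := by nlinarith [abs_nonneg s.im]
    refine (hB i s hs).trans ?_
    have h3 : (1 + |s.im|) * (D i).C ≤ ((1 + |s.im|) * (D i).C) ^ (m + 1 : ℝ) := by
      conv_lhs => rw [← Real.rpow_one ((1 + |s.im|) * (D i).C)]
      refine Real.rpow_le_rpow_of_exponent_le h0 ?_
      have : (0 : ℝ) ≤ m := Nat.cast_nonneg _
      linarith
    calc B * ((1 + |s.im|) * (D i).C) ^ δ ≤ |B| * ((1 + |s.im|) * (D i).C) ^ δ :=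
          mul_le_mul_of_nonneg_right (le_abs_self B) (Real.rpow_nonneg (by linarith) _)
      _ ≤ _ := mul_le_mul_of_nonneg_left (Real.rpow_le_rpow (by linarith) h3 hδ.le) (abs_nonneg B)
  refl := by
    refine ⟨16 ^ m, by positivity, fun i x t hx0 hx1 => ?_⟩
    refine (refl_gl (hD i) (t := t) hx0 hx1).trans ?_
    refine mul_le_mul_of_nonneg_right ?_ (norm_nonneg _)
    refine mul_le_mul_of_nonneg_left ?_ (by positivity)
    have h1 := cond_one_le (hD i).N_pos (D i).mu t
    exact Real.rpow_le_rpow (by unfold Datum.Q; linarith) (Datum.Q_le' (hD i).N_pos t) hx0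

theorem fam2_gl {m : ℕ} {D : ι → Datum m} (hD : ∀ i, (D i).Ok) (hM : Molteni D) :
    Fam2 (fun i => (D i).f) (fun i t => (1 + |t|) * (D i).C) (fun i t => (D i).Q t) where
  X1 := by
    intro i t
    have h1 := Datum.C_one (hD i).N_pos
    nlinarith [abs_nonneg t]
  Q1 := fun i t => cond_one_le (hD i).N_pos (D i).mu t
  Xs := ⟨1, zero_le_one, fun i t u => by rw [Real.rpow_one]; exact X_shift (hD i).N_pos t u⟩
  Qs := ⟨m, Nat.cast_nonneg _, fun i t u => cond_shift (D i).N (D i).mu t u⟩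
  QX := ⟨m + 1, by positivity, fun i t => Datum.Q_le' (hD i).N_pos t⟩
  diff := fun i => (hD i).entire
  right := right_gl hD hM
  refl := ⟨16 ^ m, by positivity, fun i x t hx0 hx1 => refl_gl (hD i) hx0 hx1⟩
  crude := by
    obtain ⟨C, hC, h⟩ := crude (afam_gl hD hM)
    exact ⟨C, m + 1, by linarith, by positivity, h⟩

theorem fam2_of_afam {m : ℝ} {L : ι → ℂ → ℂ} {Q : ι → ℝ → ℝ} (H : AFam m L Q) : Fam2 L Q Q where
  X1 := H.Q1
  Q1 := H.Q1
  Xs := ⟨m, H.m0, H.Qs⟩
  Qs := ⟨m, H.m0, H.Qs⟩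
  QX := ⟨1, zero_le_one, fun i t => by rw [Real.rpow_one]⟩
  diff := H.diff
  right := H.right
  refl := H.refl
  crude := by
    obtain ⟨C, hC, h⟩ := crude H
    exact ⟨C, 1, by linarith, zero_le_one, fun i s hs => by rw [Real.rpow_one]; exact h i s hs⟩

theorem Fam2.comp {ι' : Type} {L : ι → ℂ → ℂ} {X Q : ι → ℝ → ℝ} (H : Fam2 L X Q) (g : ι' → ι) :
    Fam2 (fun i => L (g i)) (fun i => X (g i)) (fun i => Q (g i)) where
  X1 := fun i => H.X1 (g i)
  Q1 := fun i => H.Q1 (g i)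
  Xs := by obtain ⟨m, hm, h⟩ := H.Xs; exact ⟨m, hm, fun i => h (g i)⟩
  Qs := by obtain ⟨m, hm, h⟩ := H.Qs; exact ⟨m, hm, fun i => h (g i)⟩
  QX := by obtain ⟨m, hm, h⟩ := H.QX; exact ⟨m, hm, fun i => h (g i)⟩
  diff := fun i => H.diff (g i)
  right := by intro δ hδ; obtain ⟨B, h⟩ := H.right δ hδ; exact ⟨B, fun i => h (g i)⟩
  refl := by obtain ⟨m, hm, h⟩ := H.refl; exact ⟨m, hm, fun i => h (g i)⟩
  crude := by obtain ⟨C, B, hC, hB, h⟩ := H.crude; exact ⟨C, B, hC, hB, fun i => h (g i)⟩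

end proofs

/-- **Zeros and small values of derivatives of L-functions decide the Lindelöf hypothesis.** -/
theorem result :
    (∀ (ι : Type) (m : ℕ) (D : ι → Datum m), (∀ i, (D i).Ok) → Molteni D →
      Conclusion (fun i => (D i).f) (fun i T => (1 + |T|) * (D i).C) (fun i T => (D i).Q T)) ∧
    (∀ (ι : Type) (q : ι → ℕ) [∀ i, NeZero (q i)] (χ : (i : ι) → DirichletCharacter ℂ (q i)),
      (∀ i, 1 < q i ∧ (χ i).IsPrimitive) →
      Conclusion (fun i => DirichletCharacter.LFunction (χ i)) (fun i T => (q i : ℝ) * (1 + |T|))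
        (fun i T => (q i : ℝ) * (1 + |T|))) := by
  refine ⟨fun ι m D hD hM => conclusion_of (fam2_gl hD hM), fun ι q _ χ h => conclusion_of ?_⟩
  exact Fam2.comp (fam2_of_afam (H855R2.SF.dir_afam (fun _ _ => True)))
    (fun i => (⟨q i, (h i).1, χ i, (h i).2, trivial⟩ : H855R2.SF.DC (fun _ _ => True)))

end Pool.Agent.Results.MP_52e316_nt.ZerosOfDerivativesGLm
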